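import Mathlib
import Pool.Agent.W744.NG.Stubs

set_option autoImplicit false

namespace Pool.Agent.W585.NG

open Pool.Agent.W744.NG

/-- the sign character of `ℤ/2` -/
def chiZ (z : ZMod 2) : ℤ := if z = 0 then 1 else -1

lemma chiZ_add : ∀ z w : ZMod 2, chiZ (z + w) = chiZ z * chiZ w := by decide

lemma chiZ_one : chiZ 1 = -1 := by decide

lemma chiZ_zero : chiZ 0 = 1 := by decide

lemma chiZ_abs : ∀ z : ZMod 2, |chiZ z| = 1 := by decide

/-- the sign character with complex values -/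
noncomputable def chi (z : ZMod 2) : ℂ := (chiZ z : ℂ)

lemma chi_add (z w : ZMod 2) : chi (z + w) = chi z * chi w := by
  unfold chi
  rw [chiZ_add]
  push_cast
  rfl

lemma chi_one : chi 1 = -1 := by
  unfold chi
  rw [chiZ_one]
  norm_num

lemma chi_zero : chi 0 = 1 := by
  unfold chi
  rw [chiZ_zero]
  norm_num

lemma chi_norm (z : ZMod 2) : ‖chi z‖ = 1 := by
  unfold chi
  rw [Complex.norm_intCast, ← Int.cast_abs, chiZ_abs]
  norm_num

lemma z2_cases : ∀ z : ZMod 2, z = 0 ∨ z = 1 := by decide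

lemma z2_add_self : ∀ z : ZMod 2, z + z = 0 := by decide

lemma pr2_add_right {m : ℕ} (μ a b : Fin m → ZMod 2) : pr2 μ (a + b) = pr2 μ a + pr2 μ b := by
  unfold pr2
  rw [← Finset.sum_add_distrib]
  apply Finset.sum_congr rfl
  intro l _
  rw [Pi.add_apply]
  ring

lemma pr2_add_left {m : ℕ} (μ a b : Fin m → ZMod 2) : pr2 (a + b) μ = pr2 a μ + pr2 b μ := by
  unfold pr2
  rw [← Finset.sum_add_distrib]
  apply Finset.sum_congr rfl
  intro l _
  rw [Pi.add_apply]
  ring

lemma pr2_zero_left {m : ℕ} (a : Fin m → ZMod 2) : pr2 0 a = 0 := by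
  unfold pr2
  simp

lemma pr2_zero_right {m : ℕ} (a : Fin m → ZMod 2) : pr2 a 0 = 0 := by
  unfold pr2
  simp

lemma pr2_single {m : ℕ} (l : Fin m) (a : Fin m → ZMod 2) : pr2 (Pi.single l 1) a = a l := by
  unfold pr2
  rw [Finset.sum_eq_single l]
  · simp
  · intro j _ hj
    rw [Pi.single_eq_of_ne hj, zero_mul]
  · intro h
    exact absurd (Finset.mem_univ l) h

lemma pr2_sum {m : ℕ} {ι : Type} (s : Finset ι) (μ : Fin m → ZMod 2)
    (f : ι → Fin m → ZMod 2) : pr2 μ (∑ i ∈ s, f i) = ∑ i ∈ s, pr2 μ (f i) := by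
  classical
  induction s using Finset.induction_on with
  | empty => simp [pr2_zero_right]
  | insert a s ha ih => rw [Finset.sum_insert ha, Finset.sum_insert ha, pr2_add_right, ih]

/-- orthogonality of characters -/
lemma orth {m : ℕ} (a : Fin m → ZMod 2) :
    ∑ μ : Fin m → ZMod 2, chi (pr2 μ a) = if a = 0 then 2 ^ m else 0 := by
  split_ifs with h
  · subst h
    simp only [pr2_zero_right, chi_zero, Finset.sum_const, Finset.card_univ, Fintype.card_fun,
      ZMod.card, Fintype.card_fin]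
    simp
  · obtain ⟨l, hl⟩ := Function.ne_iff.1 h
    have hl1 : a l = 1 := (z2_cases (a l)).resolve_left hl
    have h1 : ∑ μ : Fin m → ZMod 2, chi (pr2 μ a) = -∑ μ : Fin m → ZMod 2, chi (pr2 μ a) := by
      conv_lhs => rw [← Equiv.sum_comp (Equiv.addRight (Pi.single l 1 : Fin m → ZMod 2))]
      rw [← Finset.sum_neg_distrib]
      apply Finset.sum_congr rfl
      intro μ _
      rw [Equiv.coe_addRight, pr2_add_left, pr2_single, hl1, chi_add, chi_one]
      ring
    exact CharZero.eq_neg_self_iff.1 h1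

/-- Fourier inversion -/
lemma inv1 {m : ℕ} (f : (Fin m → ZMod 2) → ℂ) (a : Fin m → ZMod 2) :
    ∑ μ : Fin m → ZMod 2, (∑ a', f a' * chi (pr2 μ a')) * chi (pr2 μ a) = 2 ^ m * f a := by
  have h1 : ∀ μ : Fin m → ZMod 2, (∑ a', f a' * chi (pr2 μ a')) * chi (pr2 μ a) =
      ∑ a', f a' * chi (pr2 μ (a' + a)) := by
    intro μ
    rw [Finset.sum_mul]
    apply Finset.sum_congr rfl
    intro a' _
    rw [pr2_add_right, chi_add, mul_assoc]
  rw [Finset.sum_congr rfl (fun μ _ => h1 μ), Finset.sum_comm]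
  have h2 : ∀ a' : Fin m → ZMod 2, ∑ μ : Fin m → ZMod 2, f a' * chi (pr2 μ (a' + a)) =
      if a' = a then 2 ^ m * f a' else 0 := by
    intro a'
    rw [← Finset.mul_sum, orth]
    have h3 : a' + a = 0 ↔ a' = a := by
      constructor
      · intro h
        funext l
        have h4 := congrFun h l
        rw [Pi.add_apply, Pi.zero_apply] at h4
        have h5 := z2_add_self (a l)
        exact add_right_cancel (h4.trans h5.symm)
      · intro h
        subst h
        funext l
        exact z2_add_self _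
    by_cases h : a' = a
    · rw [if_pos (h3.2 h), if_pos h]; ring
    · rw [if_neg (fun h4 => h (h3.1 h4)), if_neg h]; ring
  rw [Finset.sum_congr rfl (fun a' _ => h2 a')]
  simp

lemma pr2_gau {m r d n : ℕ} (lb : Fin d ≃ Fin r × (Fin m → ZMod 2))
    (ω : Fin d → Fin n → (Fin m → ZMod 2)) (κ : Fin d → Fin n) (S : Fin r → ZMod 2) :
    pr2 S (gau lb ω κ) = ∑ i, S (lb i).1 * pr2 (lb i).2 (ω i (κ i)) := by
  unfold pr2 gau
  simp only [Finset.mul_sum]
  rw [Finset.sum_comm]
  apply Finset.sum_congr rfl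
  intro i _
  rw [Finset.sum_eq_single (lb i).1]
  · rw [if_pos rfl]
    unfold pr2
    rw [Finset.mul_sum]
  · intro s _ hs
    rw [if_neg (fun h => hs h.symm), mul_zero]
  · intro h
    exact absurd (Finset.mem_univ _) h

open Classical in
theorem gauge_letters : S_Gau := by
  intro m r d n lb F hF hF0
  have hex : ∀ S : Fin r → ZMod 2, S ≠ 0 → ∃ s, S s = 1 := by
    intro S hS
    obtain ⟨l, hl⟩ := Function.ne_iff.1 hS
    exact ⟨l, (z2_cases (S l)).resolve_left hl⟩
  by_cases hr : Nonempty (Fin r)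
  swap
  · have he : IsEmpty (Fin r) := not_nonempty_iff.1 hr
    have hz : ∀ a v, F a v = 0 := by
      intro a v
      have h1 := hF0 a
      rw [Fintype.sum_unique] at h1
      rw [← h1]
      congr 1
      exact Subsingleton.elim _ _
    refine ⟨fun _ _ _ _ => 0, fun _ _ _ _ _ _ => rfl, fun _ _ _ _ => by simp, fun ω κ v => ?_⟩
    rw [hz]
    simp
  choose! sel hsel using hex
  set c : (Fin m → ZMod 2) → (Fin r → ZMod 2) → ℂ := fun μ S =>
    ((2 : ℂ) ^ (m + r))⁻¹ * ∑ a', (∑ u', F a' u' * chi (pr2 S u')) * chi (pr2 μ a') with hc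
  have hc1 : ∀ μ S, ‖c μ S‖ ≤ 1 := by
    intro μ S
    simp only [hc]
    rw [norm_mul, norm_inv, norm_pow, Complex.norm_two]
    have h1 : ‖∑ a', (∑ u', F a' u' * chi (pr2 S u')) * chi (pr2 μ a')‖ ≤ 2 ^ (m + r) := by
      refine (norm_sum_le _ _).trans ?_
      have h2 : ∀ a' ∈ (Finset.univ : Finset (Fin m → ZMod 2)),
          ‖(∑ u', F a' u' * chi (pr2 S u')) * chi (pr2 μ a')‖ ≤ 2 ^ r := by
        intro a' _
        rw [norm_mul, chi_norm, mul_one]
        refine (norm_sum_le _ _).trans ?_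
        have h3 : ∀ u' ∈ (Finset.univ : Finset (Fin r → ZMod 2)),
            ‖F a' u' * chi (pr2 S u')‖ ≤ 1 := by
          intro u' _
          rw [norm_mul, chi_norm, mul_one]
          exact hF a' u'
        refine (Finset.sum_le_sum h3).trans (le_of_eq ?_)
        simp
      refine (Finset.sum_le_sum h2).trans (le_of_eq ?_)
      rw [pow_add]
      simp
    calc _ ≤ ((2 : ℝ) ^ (m + r))⁻¹ * 2 ^ (m + r) := mul_le_mul_of_nonneg_left h1 (by positivity)
      _ = 1 := inv_mul_cancel₀ (by positivity)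
  have hc0 : ∀ μ, c μ 0 = 0 := by
    intro μ
    simp only [hc, pr2_zero_left, chi_zero, mul_one, hF0, zero_mul, Finset.sum_const_zero, mul_zero]
  have hexp : ∀ a u, F a u = ∑ S : Fin r → ZMod 2, ∑ μ : Fin m → ZMod 2,
      c μ S * chi (pr2 μ a) * chi (pr2 S u) := by
    intro a u
    have h1 : ∀ S : Fin r → ZMod 2, ∑ μ : Fin m → ZMod 2, c μ S * chi (pr2 μ a) * chi (pr2 S u) =
        ((2 : ℂ) ^ (m + r))⁻¹ * 2 ^ m * ((∑ u', F a u' * chi (pr2 S u')) * chi (pr2 S u)) := by
      intro S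
      rw [← Finset.sum_mul]
      have h2 := inv1 (fun a' => ∑ u', F a' u' * chi (pr2 S u')) a
      simp only [hc]
      have h3 : ∑ μ : Fin m → ZMod 2, ((2 : ℂ) ^ (m + r))⁻¹ *
          (∑ a', (∑ u', F a' u' * chi (pr2 S u')) * chi (pr2 μ a')) * chi (pr2 μ a) =
          ((2 : ℂ) ^ (m + r))⁻¹ * (2 ^ m * ∑ u', F a u' * chi (pr2 S u')) := by
        rw [← h2, Finset.mul_sum]
        apply Finset.sum_congr rfl
        intro μ _
        rw [mul_assoc]
      rw [h3]
      ring
    rw [Finset.sum_congr rfl (fun S _ => h1 S), ← Finset.mul_sum, inv1 (fun u' => F a u') u, pow_add]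
    have : (2 : ℂ) ≠ 0 := two_ne_zero
    field_simp
  -- the functions
  set Gf : Fin d → (Fin d → Fin n → (Fin m → ZMod 2)) → (Fin d → Fin n) → (Fin r → ZMod 2) → ℂ :=
    fun i ω κ v => ∑ S ∈ Finset.univ.filter (fun S : Fin r → ZMod 2 => S ≠ 0 ∧ sel S = (lb i).1),
      c (lb i).2 S * chi (pr2 S v) * chi (pr2 S (gau lb ω κ) + pr2 (lb i).2 (ltr ω κ)) with hG
  refine ⟨Gf, ?_, ?_, ?_⟩
  · intro i ω κ κ' v hκ
    simp only [hG]
    apply Finset.sum_congr rfl
    intro S hS
    rw [Finset.mem_filter] at hS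
    obtain ⟨_, hS0, hSi⟩ := hS
    have hSs : S (lb i).1 = 1 := by rw [← hSi]; exact hsel S hS0
    have h1 : ∀ κ : Fin d → Fin n, pr2 S (gau lb ω κ) + pr2 (lb i).2 (ltr ω κ) =
        ∑ i', (S (lb i').1 * pr2 (lb i').2 (ω i' (κ i')) + pr2 (lb i).2 (ω i' (κ i'))) := by
      intro κ
      rw [pr2_gau, Finset.sum_add_distrib]
      congr 1
      unfold ltr
      rw [pr2_sum]
    rw [h1 κ, h1 κ']
    congr 2
    apply Finset.sum_congr rfl
    intro i' _
    by_cases hi : i' = i
    · subst hi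
      rw [hSs, one_mul, one_mul, z2_add_self, z2_add_self]
    · rw [hκ i' hi]
  · intro i ω κ v
    simp only [hG]
    refine (norm_sum_le _ _).trans ?_
    have h1 : ∀ S ∈ Finset.univ.filter (fun S : Fin r → ZMod 2 => S ≠ 0 ∧ sel S = (lb i).1),
        ‖c (lb i).2 S * chi (pr2 S v) * chi (pr2 S (gau lb ω κ) + pr2 (lb i).2 (ltr ω κ))‖ ≤ 1 := by
      intro S _
      rw [norm_mul, norm_mul, chi_norm, chi_norm, mul_one, mul_one]
      exact hc1 _ _
    refine (Finset.sum_le_sum h1).trans ?_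
    rw [Finset.sum_const, nsmul_eq_mul, mul_one]
    have h2 : (Finset.univ.filter (fun S : Fin r → ZMod 2 => S ≠ 0 ∧ sel S = (lb i).1)).card ≤
        2 ^ r := by
      refine (Finset.card_le_univ _).trans (le_of_eq ?_)
      simp
    exact_mod_cast h2
  · intro ω κ v
    rw [hexp]
    simp only [hG]
    rw [← Equiv.sum_comp lb.symm, Fintype.sum_prod_type]
    simp only [Equiv.apply_symm_apply]
    rw [Finset.sum_comm (s := (Finset.univ : Finset (Fin r)))]
    have h1 : ∀ μ : Fin m → ZMod 2, ∑ s : Fin r,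
        ∑ S ∈ Finset.univ.filter (fun S : Fin r → ZMod 2 => S ≠ 0 ∧ sel S = s),
        c μ S * chi (pr2 S v) * chi (pr2 S (gau lb ω κ) + pr2 μ (ltr ω κ)) =
        ∑ S : Fin r → ZMod 2, c μ S * chi (pr2 μ (ltr ω κ)) * chi (pr2 S (v + gau lb ω κ)) := by
      intro μ
      have h2 : ∀ s : Fin r, ∑ S ∈ Finset.univ.filter (fun S : Fin r → ZMod 2 => S ≠ 0 ∧ sel S = s),
          c μ S * chi (pr2 S v) * chi (pr2 S (gau lb ω κ) + pr2 μ (ltr ω κ)) =
          ∑ S : Fin r → ZMod 2, if sel S = s then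
            c μ S * chi (pr2 S v) * chi (pr2 S (gau lb ω κ) + pr2 μ (ltr ω κ)) else 0 := by
        intro s
        rw [Finset.sum_filter]
        apply Finset.sum_congr rfl
        intro S _
        by_cases h0 : S = 0
        · subst h0
          rw [hc0]
          simp
        · by_cases h3 : sel S = s
          · rw [if_pos ⟨h0, h3⟩, if_pos h3]
          · rw [if_neg (fun h => h3 h.2), if_neg h3]
      rw [Finset.sum_congr rfl (fun s _ => h2 s), Finset.sum_comm]
      apply Finset.sum_congr rfl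
      intro S _
      rw [Finset.sum_ite_eq, if_pos (Finset.mem_univ _), pr2_add_right, chi_add, chi_add]
      ring
    rw [Finset.sum_congr rfl (fun μ _ => h1 μ), Finset.sum_comm]

end Pool.Agent.W585.NG
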