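import Mathlib
import Pool.Agent.W744.NG.Stubs

set_option autoImplicit false

namespace Pool.Agent.W585.NG

open Pool.Agent.W744.NG

lemma ltr_add {A : Type} [AddCommMonoid A] {d n : ℕ} (ω η : Fin d → Fin n → A)
    (κ : Fin d → Fin n) : ltr (ω + η) κ = ltr ω κ + ltr η κ := by
  unfold ltr
  rw [← Finset.sum_add_distrib]
  rfl

lemma ltr_single {A : Type} [AddCommMonoid A] {d n : ℕ} (i : Fin d) (u : Fin n → A)
    (κ : Fin d → Fin n) : ltr (Pi.single i u) κ = u (κ i) := by
  unfold ltr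
  rw [Finset.sum_eq_single i]
  · rw [Pi.single_eq_same]
  · intro j _ hj
    rw [Pi.single_eq_of_ne hj]
    rfl
  · intro h
    exact absurd (Finset.mem_univ i) h

lemma sum_shift {A : Type} [AddCommGroup A] [Fintype A] (φ : A → ℂ) (a : A) :
    ∑ b, φ (a + b) = ∑ b, φ b :=
  Fintype.sum_equiv (Equiv.addLeft a) _ _ (fun _ => rfl)

theorem letters : S_Let := by
  intro A _ _ d n φ φ' κ κ' hd
  have hcard : (Fintype.card (Fin d → Fin n → A) : ℂ) = (Fintype.card A : ℂ) ^ (d * n) := by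
    rw [Fintype.card_fun, Fintype.card_fun, Fintype.card_fin, Fintype.card_fin, ← pow_mul,
      mul_comm n d]
    push_cast
    rfl
  constructor
  · set i0 : Fin d := ⟨0, hd⟩ with hi0
    have h1 : ∀ b : A, ∑ ω : Fin d → Fin n → A, φ (ltr ω κ) =
        ∑ ω : Fin d → Fin n → A, φ (ltr ω κ + b) := by
      intro b
      rw [← Equiv.sum_comp (Equiv.addRight (Pi.single i0 (Pi.single (κ i0) b) :
        Fin d → Fin n → A))]
      apply Finset.sum_congr rfl
      intro ω _
      rw [Equiv.coe_addRight, ltr_add, ltr_single, Pi.single_eq_same]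
    calc (Fintype.card A : ℂ) * ∑ ω : Fin d → Fin n → A, φ (ltr ω κ)
        = ∑ b : A, ∑ ω : Fin d → Fin n → A, φ (ltr ω κ) := by
          rw [Finset.sum_const, Finset.card_univ, nsmul_eq_mul]
      _ = ∑ b : A, ∑ ω : Fin d → Fin n → A, φ (ltr ω κ + b) :=
          Finset.sum_congr rfl (fun b _ => h1 b)
      _ = ∑ ω : Fin d → Fin n → A, ∑ b : A, φ (ltr ω κ + b) := Finset.sum_comm
      _ = ∑ ω : Fin d → Fin n → A, ∑ b : A, φ b :=
          Finset.sum_congr rfl (fun ω _ => sum_shift φ _)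
      _ = (Fintype.card A : ℂ) ^ (d * n) * ∑ a, φ a := by
          rw [Finset.sum_const, Finset.card_univ, nsmul_eq_mul, hcard]
  · intro hne
    obtain ⟨i0, hi0⟩ := Function.ne_iff.1 hne
    have h1 : ∀ b b' : A, ∑ ω : Fin d → Fin n → A, φ (ltr ω κ) * φ' (ltr ω κ') =
        ∑ ω : Fin d → Fin n → A, φ (ltr ω κ + b) * φ' (ltr ω κ' + b') := by
      intro b b'
      rw [← Equiv.sum_comp (Equiv.addRight (Pi.single i0 (Pi.single (κ i0) b +
        Pi.single (κ' i0) b') : Fin d → Fin n → A))]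
      apply Finset.sum_congr rfl
      intro ω _
      rw [Equiv.coe_addRight, ltr_add, ltr_single, ltr_add, ltr_single, Pi.add_apply, Pi.add_apply,
        Pi.single_eq_same, Pi.single_eq_same, Pi.single_eq_of_ne hi0, Pi.single_eq_of_ne hi0.symm,
        add_zero, zero_add]
    calc (Fintype.card A : ℂ) ^ 2 * ∑ ω : Fin d → Fin n → A, φ (ltr ω κ) * φ' (ltr ω κ')
        = ∑ b : A, ∑ b' : A, ∑ ω : Fin d → Fin n → A, φ (ltr ω κ) * φ' (ltr ω κ') := by
          rw [Finset.sum_const, Finset.sum_const, Finset.card_univ, nsmul_eq_mul, nsmul_eq_mul,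
            sq, mul_assoc]
      _ = ∑ b : A, ∑ b' : A, ∑ ω : Fin d → Fin n → A, φ (ltr ω κ + b) * φ' (ltr ω κ' + b') :=
          Finset.sum_congr rfl (fun b _ => Finset.sum_congr rfl (fun b' _ => h1 b b'))
      _ = ∑ b : A, ∑ ω : Fin d → Fin n → A, ∑ b' : A, φ (ltr ω κ + b) * φ' (ltr ω κ' + b') :=
          Finset.sum_congr rfl (fun b _ => Finset.sum_comm)
      _ = ∑ ω : Fin d → Fin n → A, ∑ b : A, ∑ b' : A, φ (ltr ω κ + b) * φ' (ltr ω κ' + b') :=
          Finset.sum_comm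
      _ = ∑ ω : Fin d → Fin n → A, (∑ b : A, φ b) * ∑ b' : A, φ' b' := by
          apply Finset.sum_congr rfl
          intro ω _
          rw [← sum_shift φ (ltr ω κ), ← sum_shift φ' (ltr ω κ'), Finset.sum_mul_sum]
      _ = (Fintype.card A : ℂ) ^ (d * n) * ((∑ a, φ a) * ∑ a, φ' a) := by
          rw [Finset.sum_const, Finset.card_univ, nsmul_eq_mul, hcard]

end Pool.Agent.W585.NG
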