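import Mathlib
import Pool.Agent.W744.NG.Stubs

set_option autoImplicit false

namespace Pool.Agent.W585.NG

open Pool.Agent.W744.NG Polynomial

/-- `ℓ¹` norm of the first coefficients -/
noncomputable def n1 (N : ℕ) (p : ℂ[X]) : ℝ := ∑ i ∈ Finset.range N, ‖p.coeff i‖

/-- `ℓ²` norm of the first coefficients -/
noncomputable def n2 (N : ℕ) (p : ℂ[X]) : ℝ :=
  ‖(WithLp.toLp 2 (fun i : Fin N => p.coeff (i : ℕ)) : EuclideanSpace ℂ (Fin N))‖

lemma n2_sq (N : ℕ) (p : ℂ[X]) : n2 N p ^ 2 = ∑ i ∈ Finset.range N, ‖p.coeff i‖ ^ 2 := by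
  unfold n2
  rw [EuclideanSpace.norm_sq_eq, ← Fin.sum_univ_eq_sum_range (fun i => ‖p.coeff i‖ ^ 2) N]

/-- properties shared by the two norms -/
structure Nm (ν : ℂ[X] → ℝ) : Prop where
  nn : ∀ p, 0 ≤ ν p
  add : ∀ p q, ν (p + q) ≤ ν p + ν q
  smul : ∀ (c : ℂ) p, ν (C c * p) ≤ ‖c‖ * ν p
  mX : ∀ p, ν (X * p) ≤ ν p
  neg : ∀ p, ν (-p) ≤ ν p
  zero : ν 0 ≤ 0

lemma nm1 (N : ℕ) : Nm (n1 N) where
  nn p := Finset.sum_nonneg (fun i _ => norm_nonneg _)
  add p q := by
    unfold n1
    rw [← Finset.sum_add_distrib]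
    apply Finset.sum_le_sum
    intro i _
    rw [coeff_add]
    exact norm_add_le _ _
  smul c p := by
    unfold n1
    rw [Finset.mul_sum]
    apply Finset.sum_le_sum
    intro i _
    rw [coeff_C_mul, norm_mul]
  mX p := by
    unfold n1
    cases N with
    | zero => simp
    | succ M =>
      rw [Finset.sum_range_succ', Finset.sum_range_succ]
      simp only [coeff_X_mul, coeff_X_mul_zero, norm_zero, add_zero]
      linarith [norm_nonneg (p.coeff M)]
  neg p := by
    unfold n1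
    simp
  zero := by
    unfold n1
    simp

lemma nm2 (N : ℕ) : Nm (n2 N) where
  nn p := norm_nonneg _
  add p q := by
    unfold n2
    have : (WithLp.toLp 2 (fun i : Fin N => (p + q).coeff (i : ℕ)) : EuclideanSpace ℂ (Fin N)) =
        WithLp.toLp 2 (fun i : Fin N => p.coeff (i : ℕ)) +
        WithLp.toLp 2 (fun i : Fin N => q.coeff (i : ℕ)) := by
      ext i
      simp
    rw [this]
    exact norm_add_le _ _
  smul c p := by
    unfold n2
    have : (WithLp.toLp 2 (fun i : Fin N => (C c * p).coeff (i : ℕ)) : EuclideanSpace ℂ (Fin N)) =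
        c • WithLp.toLp 2 (fun i : Fin N => p.coeff (i : ℕ)) := by
      ext i
      simp
    rw [this, norm_smul]
  mX p := by
    apply le_of_sq_le_sq _ (norm_nonneg _)
    have h1 := n2_sq N (X * p)
    have h2 := n2_sq N p
    show n2 N (X * p) ^ 2 ≤ n2 N p ^ 2
    rw [h1, h2]
    cases N with
    | zero => simp
    | succ M =>
      rw [Finset.sum_range_succ', Finset.sum_range_succ]
      simp only [coeff_X_mul, coeff_X_mul_zero, norm_zero]
      nlinarith [sq_nonneg ‖p.coeff M‖]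
  neg p := by
    unfold n2
    have : (WithLp.toLp 2 (fun i : Fin N => (-p).coeff (i : ℕ)) : EuclideanSpace ℂ (Fin N)) =
        -WithLp.toLp 2 (fun i : Fin N => p.coeff (i : ℕ)) := by
      ext i
      simp
    rw [this, norm_neg]
  zero := by
    unfold n2
    have : (WithLp.toLp 2 (fun i : Fin N => (0 : ℂ[X]).coeff (i : ℕ)) :
        EuclideanSpace ℂ (Fin N)) = 0 := by
      ext i
      simp
    rw [this, norm_zero]

/-- the average of `X^(l a)`, `l < L` -/
noncomputable def avg (L a : ℕ) : ℂ[X] := ∑ l ∈ Finset.range L, C ((L : ℂ)⁻¹) * X ^ (l * a)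

lemma Nm.Xpow {ν : ℂ[X] → ℝ} (h : Nm ν) (k : ℕ) (p : ℂ[X]) : ν (X ^ k * p) ≤ ν p := by
  induction k with
  | zero => simp
  | succ k ih =>
    rw [pow_succ', mul_assoc]
    exact (h.mX _).trans ih

lemma Nm.sum {ν : ℂ[X] → ℝ} (h : Nm ν) (s : Finset ℕ) (f : ℕ → ℂ[X]) :
    ν (∑ l ∈ s, f l) ≤ ∑ l ∈ s, ν (f l) := by
  classical
  induction s using Finset.induction_on with
  | empty => simpa using h.zero
  | insert a s ha ih =>
    rw [Finset.sum_insert ha, Finset.sum_insert ha]
    exact (h.add _ _).trans (by linarith)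

lemma Nm.avg {ν : ℂ[X] → ℝ} (h : Nm ν) {L : ℕ} (hL : 0 < L) (a : ℕ) (p : ℂ[X]) :
    ν (avg L a * p) ≤ ν p := by
  unfold NG.avg
  rw [Finset.sum_mul]
  refine (h.sum _ _).trans ?_
  have h1 : ∀ l ∈ Finset.range L, ν (C ((L : ℂ)⁻¹) * X ^ (l * a) * p) ≤ (L : ℝ)⁻¹ * ν p := by
    intro l _
    rw [mul_assoc]
    refine (h.smul _ _).trans ?_
    rw [norm_inv, Complex.norm_natCast]
    exact mul_le_mul_of_nonneg_left (h.Xpow _ _) (by positivity)
  refine (Finset.sum_le_sum h1).trans (le_of_eq ?_)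
  rw [Finset.sum_const, Finset.card_range, nsmul_eq_mul]
  have : (L : ℝ) ≠ 0 := by positivity
  field_simp

lemma n1_one (N : ℕ) : n1 N 1 ≤ 1 := by
  unfold n1
  cases N with
  | zero => simp
  | succ M =>
    rw [Finset.sum_range_succ']
    simp [coeff_one]

lemma n1_avg (N : ℕ) {L : ℕ} (hL : 0 < L) (a : ℕ) : n1 N (avg L a) ≤ 1 := by
  have := (nm1 N).avg hL a 1
  rw [mul_one] at this
  exact this.trans (n1_one N)

lemma coeff_avg {L a : ℕ} (hL : 0 < L) (ha : 0 < a) (i : ℕ) : ‖(avg L a).coeff i‖ ≤ (L : ℝ)⁻¹ := by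
  unfold avg
  rw [finsetSum_coeff]
  have h1 : ∀ l ∈ Finset.range L, (C ((L : ℂ)⁻¹) * X ^ (l * a) : ℂ[X]).coeff i =
      if i = l * a then (L : ℂ)⁻¹ else 0 := by
    intro l _
    rw [coeff_C_mul, coeff_X_pow]
    split_ifs <;> simp
  rw [Finset.sum_congr rfl h1]
  by_cases h : ∃ l ∈ Finset.range L, i = l * a
  · obtain ⟨l, hl, hi⟩ := h
    rw [Finset.sum_eq_single l]
    · rw [if_pos hi, norm_inv, Complex.norm_natCast]
    · intro l' _ hne
      rw [if_neg]
      intro h2
      exact hne (Nat.eq_of_mul_eq_mul_right ha (by rw [← h2, hi]))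
    · intro h2
      exact absurd hl h2
  · push Not at h
    rw [Finset.sum_eq_zero]
    · rw [norm_zero]; positivity
    · intro l hl
      rw [if_neg (h l hl)]

lemma n2_avg (N : ℕ) {L a : ℕ} (hL : 0 < L) (ha : 0 < a) :
    n2 N (avg L a) ≤ 1 / Real.sqrt L := by
  have hL' : (0 : ℝ) < L := by exact_mod_cast hL
  apply le_of_sq_le_sq _ (by positivity)
  rw [n2_sq, div_pow, one_pow, Real.sq_sqrt hL'.le]
  calc ∑ i ∈ Finset.range N, ‖(avg L a).coeff i‖ ^ 2
      ≤ ∑ i ∈ Finset.range N, (L : ℝ)⁻¹ * ‖(avg L a).coeff i‖ := by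
        apply Finset.sum_le_sum
        intro i _
        rw [sq]
        exact mul_le_mul_of_nonneg_right (coeff_avg hL ha i) (norm_nonneg _)
    _ = (L : ℝ)⁻¹ * n1 N (avg L a) := by rw [← Finset.mul_sum]; rfl
    _ ≤ (L : ℝ)⁻¹ * 1 := mul_le_mul_of_nonneg_left (n1_avg N hL a) (by positivity)
    _ = 1 / L := by ring

lemma natDegree_avg (L a : ℕ) : (avg L a).natDegree ≤ L * a := by
  unfold avg
  apply natDegree_sum_le_of_forall_le
  intro l hl
  refine (natDegree_C_mul_X_pow_le _ _).trans ?_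
  exact Nat.mul_le_mul_right a (Finset.mem_range.1 hl).le

section op
variable {E : Type} [NormedAddCommGroup E] [NormedSpace ℂ E] (U : E →ₗ[ℂ] E)
  (hU : ∀ x, ‖U x‖ ≤ ‖x‖)
include hU

lemma norm_pow_le (k : ℕ) (x : E) : ‖(U ^ k) x‖ ≤ ‖x‖ := by
  induction k with
  | zero => simp
  | succ k ih =>
    rw [pow_succ', Module.End.mul_apply]
    exact (hU _).trans ih

omit hU in
lemma aeval_avg (L a : ℕ) (x : E) :
    aeval U (avg L a) x = (L : ℂ)⁻¹ • ∑ l ∈ Finset.range L, (U ^ (l * a)) x := by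
  unfold avg
  rw [map_sum, LinearMap.sum_apply, Finset.smul_sum]
  apply Finset.sum_congr rfl
  intro l _
  rw [map_mul, aeval_C, map_pow, aeval_X, Module.End.mul_apply]
  rfl

lemma norm_avg_le {L : ℕ} (hL : 0 < L) (a : ℕ) (x : E) : ‖aeval U (1 - avg L a) x‖ ≤ 2 * ‖x‖ := by
  have hL' : (L : ℝ) ≠ 0 := by positivity
  rw [map_sub, map_one, LinearMap.sub_apply, Module.End.one_apply, aeval_avg]
  refine (norm_sub_le _ _).trans ?_
  have h1 : ‖(L : ℂ)⁻¹ • ∑ l ∈ Finset.range L, (U ^ (l * a)) x‖ ≤ ‖x‖ := by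
    rw [norm_smul, norm_inv, Complex.norm_natCast]
    have h2 : ‖∑ l ∈ Finset.range L, (U ^ (l * a)) x‖ ≤ L * ‖x‖ := by
      refine (norm_sum_le _ _).trans ?_
      refine (Finset.sum_le_sum (fun l _ => norm_pow_le U hU (l * a) x)).trans (le_of_eq ?_)
      rw [Finset.sum_const, Finset.card_range, nsmul_eq_mul]
    calc (L : ℝ)⁻¹ * _ ≤ (L : ℝ)⁻¹ * (L * ‖x‖) := mul_le_mul_of_nonneg_left h2 (by positivity)
      _ = ‖x‖ := by field_simp
  linarith

lemma norm_avg_small {L : ℕ} (hL : 0 < L) (a : ℕ) (x : E) (δ : ℝ) (h : ‖(U ^ a) x - x‖ ≤ δ) :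
    ‖aeval U (1 - avg L a) x‖ ≤ L * δ := by
  have hL' : (L : ℝ) ≠ 0 := by positivity
  have hL'' : (L : ℂ) ≠ 0 := by exact_mod_cast hL.ne'
  have hδ : 0 ≤ δ := (norm_nonneg _).trans h
  have h0 : ∀ l : ℕ, ‖(U ^ (l * a)) x - x‖ ≤ l * δ := by
    intro l
    induction l with
    | zero => simp
    | succ l ih =>
      have e : (U ^ ((l + 1) * a)) x - x = (U ^ a) ((U ^ (l * a)) x - x) + ((U ^ a) x - x) := by
        rw [map_sub, add_mul, one_mul, add_comm (l * a) a, pow_add, Module.End.mul_apply]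
        abel
      rw [e]
      refine (norm_add_le _ _).trans ?_
      have h2 := norm_pow_le U hU a ((U ^ (l * a)) x - x)
      push_cast
      linarith
  have e : aeval U (1 - avg L a) x =
      -((L : ℂ)⁻¹ • ∑ l ∈ Finset.range L, ((U ^ (l * a)) x - x)) := by
    rw [map_sub, map_one, LinearMap.sub_apply, Module.End.one_apply, aeval_avg,
      Finset.sum_sub_distrib, Finset.sum_const, Finset.card_range, smul_sub,
      ← Nat.cast_smul_eq_nsmul ℂ, smul_smul, inv_mul_cancel₀ hL'', one_smul]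
    abel
  rw [e, norm_neg, norm_smul, norm_inv, Complex.norm_natCast]
  have h2 : ‖∑ l ∈ Finset.range L, ((U ^ (l * a)) x - x)‖ ≤ L * (L * δ) := by
    refine (norm_sum_le _ _).trans ?_
    have h3 : ∀ l ∈ Finset.range L, ‖(U ^ (l * a)) x - x‖ ≤ L * δ := by
      intro l hl
      refine (h0 l).trans ?_
      apply mul_le_mul_of_nonneg_right _ hδ
      exact_mod_cast (Finset.mem_range.1 hl).le
    refine (Finset.sum_le_sum h3).trans (le_of_eq ?_)
    rw [Finset.sum_const, Finset.card_range, nsmul_eq_mul]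
  calc (L : ℝ)⁻¹ * _ ≤ (L : ℝ)⁻¹ * (L * (L * δ)) := mul_le_mul_of_nonneg_left h2 (by positivity)
    _ = L * δ := by field_simp

end op

lemma pol_aux (L : ℕ) (hL : 0 < L) : ∀ (d : ℕ) (a : Fin d → ℕ), (∀ i, 0 < a i) →
    ∃ q : ℂ[X], (∀ N, n1 N q ≤ 2 ^ d - 1) ∧ (∀ N, n2 N q ≤ (2 ^ d - 1) * (1 / Real.sqrt L)) ∧
      natDegree q ≤ L * ∑ i, a i ∧
      ∀ (E : Type) [NormedAddCommGroup E] [NormedSpace ℂ E] (U : E →ₗ[ℂ] E),
        (∀ x, ‖U x‖ ≤ ‖x‖) → (∀ x, ‖aeval U (1 - q) x‖ ≤ 2 ^ d * ‖x‖) ∧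
        ∀ (i : Fin d) (x : E) (δ : ℝ), ‖(U ^ a i) x - x‖ ≤ δ →
          ‖aeval U (1 - q) x‖ ≤ 2 ^ d * (L * δ) := by
  intro d
  induction d with
  | zero =>
    intro a _
    refine ⟨0, ?_, ?_, ?_, ?_⟩
    · intro N
      simpa using (nm1 N).zero
    · intro N
      simpa using (nm2 N).zero
    · simp
    · intro E _ _ U _
      refine ⟨fun x => by simp, fun i => i.elim0⟩
  | succ d ih =>
    intro a ha
    obtain ⟨q, h1, h2, h3, h4⟩ := ih (fun i => a i.castSucc) (fun i => ha _)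
    set b : ℂ[X] := avg L (a (Fin.last d)) with hb
    have hone : 1 - (q + b - b * q) = (1 - b) * (1 - q) := by ring
    refine ⟨q + b - b * q, ?_, ?_, ?_, ?_⟩
    · intro N
      have e1 := (nm1 N).add (q + b) (-(b * q))
      have e2 := (nm1 N).neg (b * q)
      have e3 := (nm1 N).avg hL (a (Fin.last d)) q
      have e4 := (nm1 N).add q b
      have e5 := n1_avg N hL (a (Fin.last d))
      have e6 := h1 N
      rw [sub_eq_add_neg, pow_succ]
      linarith
    · intro N
      have e1 := (nm2 N).add (q + b) (-(b * q))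
      have e2 := (nm2 N).neg (b * q)
      have e3 := (nm2 N).avg hL (a (Fin.last d)) q
      have e4 := (nm2 N).add q b
      have e5 := n2_avg N hL (ha (Fin.last d))
      have e6 := h2 N
      rw [sub_eq_add_neg, pow_succ]
      linarith
    · rw [Fin.sum_univ_castSucc, mul_add]
      have d1 := natDegree_avg L (a (Fin.last d))
      refine (natDegree_sub_le _ _).trans (max_le ((natDegree_add_le _ _).trans (max_le ?_ ?_)) ?_)
      · exact h3.trans (Nat.le_add_right _ _)
      · exact d1.trans (Nat.le_add_left _ _)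
      · refine natDegree_mul_le.trans ?_
        rw [add_comm]
        exact add_le_add h3 d1
    · intro E _ _ U hU
      obtain ⟨h5, h6⟩ := h4 E U hU
      constructor
      · intro x
        rw [hone, map_mul, Module.End.mul_apply]
        refine (norm_avg_le U hU hL _ _).trans ?_
        have := h5 x
        rw [pow_succ]
        linarith
      · intro i x δ hx
        refine Fin.lastCases ?_ (fun j => ?_) i (motive := fun i => ‖(U ^ a i) x - x‖ ≤ δ →
          ‖aeval U (1 - (q + b - b * q)) x‖ ≤ 2 ^ (d + 1) * (L * δ)) hx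
        · intro hx
          have e1 := norm_avg_small U hU hL (a (Fin.last d)) x δ hx
          have e2 := h5 (aeval U (1 - b) x)
          rw [hone, mul_comm, map_mul, Module.End.mul_apply]
          have e3 : (0 : ℝ) ≤ L * δ := mul_nonneg (by positivity) ((norm_nonneg _).trans hx)
          calc _ ≤ (2 : ℝ) ^ d * ‖aeval U (1 - b) x‖ := e2
            _ ≤ 2 ^ d * (L * δ) := mul_le_mul_of_nonneg_left e1 (by positivity)
            _ ≤ 2 ^ (d + 1) * (L * δ) := by
              apply mul_le_mul_of_nonneg_right _ e3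
              exact pow_le_pow_right₀ (by norm_num) (Nat.le_succ d)
        · intro hx
          have e1 := h6 j x δ hx
          rw [hone, map_mul, Module.End.mul_apply]
          refine (norm_avg_le U hU hL _ _).trans ?_
          rw [pow_succ]
          linarith

theorem pol : S_Pol := by
  intro d L a hL ha
  obtain ⟨q, h1, h2, h3, h4⟩ := pol_aux L hL d a ha
  have hL' : (0 : ℝ) < L := by exact_mod_cast hL
  have hsub : q.support ⊆ Finset.range (q.natDegree + 1) := by
    intro n hn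
    exact Finset.mem_range.2 (Nat.lt_succ_of_le (le_natDegree_of_mem_supp n hn))
  have hone : (1 : ℝ) ≤ 2 ^ d := one_le_pow₀ (by norm_num)
  refine ⟨q, ?_, ?_, h3, ?_⟩
  · have e : ∑ n ∈ q.support, ‖q.coeff n‖ = n1 (q.natDegree + 1) q := by
      unfold n1
      apply Finset.sum_subset hsub
      intro n _ hn
      rw [notMem_support_iff.1 hn, norm_zero]
    rw [e]
    linarith [h1 (q.natDegree + 1)]
  · have e : ∑ n ∈ q.support, ‖q.coeff n‖ ^ 2 = n2 (q.natDegree + 1) q ^ 2 := by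
      rw [n2_sq]
      apply Finset.sum_subset hsub
      intro n _ hn
      rw [notMem_support_iff.1 hn, norm_zero]
      norm_num
    rw [e]
    have h5 := h2 (q.natDegree + 1)
    have h6 : n2 (q.natDegree + 1) q ≤ 2 ^ d * (1 / Real.sqrt L) := by
      refine h5.trans (mul_le_mul_of_nonneg_right (by linarith) (by positivity))
    calc n2 (q.natDegree + 1) q ^ 2 ≤ (2 ^ d * (1 / Real.sqrt L)) ^ 2 :=
          pow_le_pow_left₀ ((nm2 _).nn q) h6 2
      _ = 4 ^ d / L := by
          rw [mul_pow, div_pow, one_pow, Real.sq_sqrt hL'.le, ← pow_mul, mul_comm d 2, pow_mul]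
          norm_num
          ring
  · intro E _ _ U hU f δ hf
    obtain ⟨h5, h6⟩ := h4 E U hU
    have e : (∑ n ∈ q.support, q.coeff n • (U ^ n) (∑ i, f i)) - ∑ i, f i =
        -∑ i, aeval U (1 - q) (f i) := by
      have e1 : ∑ n ∈ q.support, q.coeff n • (U ^ n) (∑ i, f i) = aeval U q (∑ i, f i) := by
        rw [aeval_endomorphism]
        rfl
      rw [e1, ← map_sum, map_sub, map_one, LinearMap.sub_apply, Module.End.one_apply]
      abel
    rw [e, norm_neg]
    refine (norm_sum_le _ _).trans ?_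
    refine (Finset.sum_le_sum (fun i _ => h6 i (f i) δ (hf i))).trans (le_of_eq ?_)
    rw [Finset.sum_const, Finset.card_univ, Fintype.card_fin, nsmul_eq_mul]
    ring

end Pool.Agent.W585.NG
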