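import Mathlib
import Pool.Agent.W744.NG.Stubs
import Pool.Agent.H359R3.MX10

set_option autoImplicit false

namespace Pool.Agent.W585.NG

open Pool.Agent.W744.NG MeasureTheory Filter Topology Set
open scoped ENNReal symmDiff

/-- the uniform probability on `ℤ/2` -/
noncomputable def hf2 : Measure (ZMod 2) := (2⁻¹ : ℝ≥0∞) • Measure.count

lemma hf2_single (a : ZMod 2) : hf2 {a} = 2⁻¹ := by
  unfold hf2
  rw [Measure.smul_apply, Measure.count_singleton]
  simp

instance : IsProbabilityMeasure hf2 := by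
  constructor
  unfold hf2
  rw [Measure.smul_apply, Measure.count_univ]
  have : (ENat.card (ZMod 2) : ℝ≥0∞) = 2 := by
    rw [ENat.card_eq_coe_fintype_card, ZMod.card]
    norm_cast
  rw [this, smul_eq_mul]
  exact ENNReal.inv_mul_cancel (by norm_num) (by norm_num)

lemma hf2_map (b : ZMod 2) : hf2.map (fun x => x + b) = hf2 := by
  apply Measure.ext_of_singleton
  intro a
  rw [Measure.map_apply (measurable_of_countable _) (measurableSet_singleton a), hf2_single]
  have : (fun x : ZMod 2 => x + b) ⁻¹' {a} = {a - b} := by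
    ext x
    simp only [mem_preimage, mem_singleton_iff]
    exact eq_sub_iff_add_eq.symm
  rw [this, hf2_single]

/-- the coin tossing measure -/
noncomputable def PP : Measure (ℕ → ZMod 2) := Measure.infinitePi (fun _ => hf2)

instance : IsProbabilityMeasure PP := by
  unfold PP
  infer_instance

/-- extension by zero -/
def ext0 {r : ℕ} (w : Fin r → ZMod 2) : ℕ → ZMod 2 := fun i => if h : i < r then w ⟨i, h⟩ else 0

lemma ext0_apply {r : ℕ} (w : Fin r → ZMod 2) (i : Fin r) : ext0 w i = w i := by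
  unfold ext0
  rw [dif_pos i.2]

/-- digits -/
def dg (r : ℕ) (z : ℕ → ZMod 2) : Fin r → ZMod 2 := fun i => z i

lemma dg_meas (r : ℕ) (w : Fin r → ZMod 2) : MeasurableSet {z | dg r z = w} := by
  have : {z | dg r z = w} = ⋂ i : Fin r, {z : ℕ → ZMod 2 | z i = w i} := by
    ext z
    simp only [mem_ofPred_eq, mem_iInter]
    exact funext_iff
  rw [this]
  exact MeasurableSet.iInter (fun i => measurable_pi_apply _ (measurableSet_singleton _))

lemma dg_measure (r : ℕ) (w : Fin r → ZMod 2) : PP {z | dg r z = w} = (2⁻¹ : ℝ≥0∞) ^ r := by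
  have : {z | dg r z = w} = Set.pi (↑(Finset.range r)) (fun i => {ext0 w i}) := by
    ext z
    simp only [mem_ofPred_eq, Set.mem_pi, Finset.coe_range, mem_Iio, mem_singleton_iff]
    constructor
    · intro h i hi
      rw [← h]
      exact (ext0_apply (dg r z) ⟨i, hi⟩).symm
    · intro h
      funext i
      exact (h i i.2).trans (ext0_apply w i)
  rw [this]
  unfold PP
  rw [Measure.infinitePi_pi _ (fun i _ => measurableSet_singleton _)]
  simp only [hf2_single, Finset.prod_const, Finset.card_range]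

lemma dg_real (r : ℕ) (w : Fin r → ZMod 2) : PP.real {z | dg r z = w} = 1 / 2 ^ r := by
  unfold Measure.real
  rw [dg_measure, ENNReal.toReal_pow, ENNReal.toReal_inv]
  simp

instance : NullSingletonClass PP := by
  refine ⟨fun z => ?_⟩
  have h1 : ∀ r : ℕ, PP {z} ≤ (2⁻¹ : ℝ≥0∞) ^ r := by
    intro r
    rw [← dg_measure r (dg r z)]
    apply measure_mono
    intro y hy
    rw [mem_singleton_iff] at hy
    subst hy
    rfl
  have h2 : Tendsto (fun r : ℕ => (2⁻¹ : ℝ≥0∞) ^ r) atTop (𝓝 0) :=
    ENNReal.tendsto_pow_atTop_nhds_zero_of_lt_one (by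
      rw [ENNReal.inv_lt_one]
      norm_num)
  exact le_antisymm (ge_of_tendsto' h2 h1) zero_le

lemma z2add (w : ℕ → ZMod 2) : w + w = 0 := by
  have h : ∀ z : ZMod 2, z + z = 0 := by decide
  funext i
  exact h _

/-- translation of the digits -/
noncomputable def tr (w : ℕ → ZMod 2) : (ℕ → ZMod 2) ≃ᵐ (ℕ → ZMod 2) where
  toFun z := z + w
  invFun z := z + w
  left_inv z := by
    show z + w + w = z
    rw [add_assoc, z2add, add_zero]
  right_inv z := by
    show z + w + w = z
    rw [add_assoc, z2add, add_zero]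
  measurable_toFun := by
    apply measurable_pi_lambda
    intro i
    exact (measurable_of_countable (fun x : ZMod 2 => x + w i)).comp (measurable_pi_apply i)
  measurable_invFun := by
    apply measurable_pi_lambda
    intro i
    exact (measurable_of_countable (fun x : ZMod 2 => x + w i)).comp (measurable_pi_apply i)

lemma tr_apply (w z : ℕ → ZMod 2) : tr w z = z + w := rfl

lemma tr_mp (w : ℕ → ZMod 2) : MeasurePreserving (tr w) PP PP := by
  refine ⟨(tr w).measurable, ?_⟩
  have h := Measure.infinitePi_map_pi (fun _ : ℕ => hf2) (f := fun i x => x + w i)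
    (fun i => measurable_of_countable _)
  simp only [hf2_map] at h
  exact h

/-- sets approximated by cylinders -/
def Appr (B : Set (ℕ → ZMod 2)) : Prop :=
  ∀ ε : ℝ, 0 < ε → ∃ r, ∃ s : Set (Fin r → ZMod 2), PP.real (B ∆ {z | dg r z ∈ s}) < ε

lemma lift_level {r r' : ℕ} (h : r ≤ r') (s : Set (Fin r → ZMod 2)) :
    ∃ s' : Set (Fin r' → ZMod 2), {z | dg r z ∈ s} = {z | dg r' z ∈ s'} := by
  refine ⟨{w | (fun i : Fin r => w (Fin.castLE h i)) ∈ s}, ?_⟩
  ext z
  rfl

lemma cyl_meas (r : ℕ) (s : Set (Fin r → ZMod 2)) : MeasurableSet {z | dg r z ∈ s} := by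
  have h1 : Measurable (dg r) := measurable_pi_lambda _ (fun i => measurable_pi_apply _)
  exact h1 (Set.toFinite s).measurableSet

lemma all_appr (B : Set (ℕ → ZMod 2)) (hB : MeasurableSet B) : Appr B := by
  have hgen : (MeasurableSpace.pi : MeasurableSpace (ℕ → ZMod 2)) =
      MeasurableSpace.generateFrom {s | ∃ (i : ℕ) (a : ZMod 2), s = {z | z i = a}} := by
    apply le_antisymm
    · apply iSup_le
      intro i
      rw [← measurable_iff_comap_le]
      apply @measurable_to_countable' _ _ _ _ (_)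
      intro a
      apply MeasurableSpace.measurableSet_generateFrom
      exact ⟨i, a, rfl⟩
    · apply MeasurableSpace.generateFrom_le
      rintro _ ⟨i, a, rfl⟩
      have h1 : Measurable (fun z : ℕ → ZMod 2 => z i) := measurable_pi_apply i
      exact h1 (measurableSet_singleton a)
  apply Pool.H359R3.approx_induction PP _ hgen Appr _ _ _ _ _ B hB
  · rintro _ ⟨i, a, rfl⟩ ε hε
    refine ⟨i + 1, {w | w (Fin.last i) = a}, ?_⟩
    have : {z : ℕ → ZMod 2 | z i = a} = {z | dg (i + 1) z ∈ {w | w (Fin.last i) = a}} := rfl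
    rw [this, symmDiff_self]
    simpa using hε
  · intro ε hε
    refine ⟨0, ∅, ?_⟩
    simpa using hε
  · intro s _ hs ε hε
    obtain ⟨r, t, ht⟩ := hs ε hε
    refine ⟨r, tᶜ, ?_⟩
    have : {z | dg r z ∈ tᶜ} = {z | dg r z ∈ t}ᶜ := rfl
    rw [this, compl_symmDiff_compl]
    exact ht
  · intro s t hsm htm hs ht ε hε
    obtain ⟨r1, s1, h1⟩ := hs (ε / 2) (by positivity)
    obtain ⟨r2, s2, h2⟩ := ht (ε / 2) (by positivity)
    obtain ⟨s1', e1⟩ := lift_level (le_max_left r1 r2) s1
    obtain ⟨s2', e2⟩ := lift_level (le_max_right r1 r2) s2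
    rw [e1] at h1
    rw [e2] at h2
    refine ⟨max r1 r2, s1' ∪ s2', ?_⟩
    have hsub : (s ∪ t) ∆ {z | dg (max r1 r2) z ∈ s1' ∪ s2'} ⊆
        (s ∆ {z | dg (max r1 r2) z ∈ s1'}) ∪ (t ∆ {z | dg (max r1 r2) z ∈ s2'}) := by
      intro z hz
      simp only [Set.mem_symmDiff, mem_union, mem_ofPred_eq] at hz ⊢
      tauto
    calc PP.real _ ≤ PP.real ((s ∆ {z | dg (max r1 r2) z ∈ s1'}) ∪
          (t ∆ {z | dg (max r1 r2) z ∈ s2'})) := measureReal_mono hsub
      _ ≤ _ := measureReal_union_le _ _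
      _ < ε := by linarith
  · intro s _ h ε hε
    obtain ⟨t, _, ht, hst⟩ := h (ε / 2) (by positivity)
    obtain ⟨r, u, hu⟩ := ht (ε / 2) (by positivity)
    refine ⟨r, u, ?_⟩
    have hsub : s ∆ {z | dg r z ∈ u} ⊆ (s ∆ t) ∪ (t ∆ {z | dg r z ∈ u}) := by
      intro z hz
      simp only [Set.mem_symmDiff, mem_union, mem_ofPred_eq] at hz ⊢
      tauto
    calc PP.real _ ≤ PP.real ((s ∆ t) ∪ (t ∆ {z | dg r z ∈ u})) := measureReal_mono hsub
      _ ≤ _ := measureReal_union_le _ _
      _ < ε := by linarith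

theorem ystr : S_YStr := by
  intro Y _ _ ν _ _
  obtain ⟨e1, he1⟩ := Pool.H359R3.MX.exists_iso ν
  obtain ⟨e2, he2⟩ := Pool.H359R3.MX.exists_iso PP
  set e : Y ≃ᵐ (ℕ → ZMod 2) := e1.trans e2.symm with he
  have hmp : MeasurePreserving e ν PP := he1.trans (he2.symm e2)
  have hreal : ∀ B : Set (ℕ → ZMod 2), ν.real (e ⁻¹' B) = PP.real B := by
    intro B
    unfold Measure.real
    rw [hmp.measure_preimage_equiv]
  refine ⟨{
    v := fun r y => dg r (e y)
    act := fun r w => ⟨(e.trans (tr (ext0 w))).trans e.symm,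
      (hmp.trans (tr_mp (ext0 w))).trans (hmp.symm e)⟩
    meas := fun r w => e.measurable (dg_meas r w)
    v_act := ?_
    invol := ?_
    unif := ?_
    ref := ?_
    gen := ?_ }⟩
  · intro r w y
    show dg r (e (e.symm (tr (ext0 w) (e y)))) = dg r (e y) + w
    rw [e.apply_symm_apply, tr_apply]
    funext i
    show (e y + ext0 w) i = dg r (e y) i + w i
    rw [Pi.add_apply, ext0_apply]
    rfl
  · intro r w y
    show e.symm (tr (ext0 w) (e (e.symm (tr (ext0 w) (e y))))) = y
    rw [e.apply_symm_apply, tr_apply, tr_apply, add_assoc, z2add, add_zero, e.symm_apply_apply]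
  · intro r w
    rw [← dg_real r w]
    exact hreal {z | dg r z = w}
  · intro r r' h y y' hy
    funext i
    have := congrFun hy (Fin.castLE h i)
    exact this
  · intro B hB ε hε
    obtain ⟨r, s, h⟩ := all_appr (e.symm ⁻¹' B) (e.symm.measurable hB) ε hε
    refine ⟨r, s, ?_⟩
    rw [← hreal] at h
    have h2 : e ⁻¹' ((e.symm ⁻¹' B) ∆ {z | dg r z ∈ s}) = B ∆ {y | dg r (e y) ∈ s} := by
      ext y
      simp [Set.mem_symmDiff]
    rw [h2] at h
    exact h

end Pool.Agent.W585.NG
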